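import Pool.Agent.H41.STCI.Line

/-!
# Curves linked to disjoint lines are set-theoretic complete intersections
-/

set_option autoImplicit false

namespace Pool.Agent.Results.MP_204867_ag.LinkedToLines

open MvPolynomial STCI

universe u v w

theorem result (k : Type u) [Field k] :
    (∀ (ι : Type w) [Finite ι] (E : ι → Type v) [∀ i, EuclideanDomain (E i)]
      (φ : ∀ i, MvPolynomial (Fin 3) k →+* E i),
      (∀ i, Function.Surjective (φ i)) →
      (∀ i, ∃ u v : MvPolynomial (Fin 3) k,
        RingHom.ker (φ i) = Ideal.span {u, v} ∧ IsRelPrime u v) →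
      (Pairwise fun i j => RingHom.ker (φ i) ⊔ RingHom.ker (φ j) = ⊤) →
      ∀ F G : MvPolynomial (Fin 3) k, (∀ i, φ i F = 0) → (∀ i, φ i G = 0) →
      TwoEq ((Ideal.span {F, G} : Ideal (MvPolynomial (Fin 3) k)).colon
        ((⨅ i, RingHom.ker (φ i) : Ideal (MvPolynomial (Fin 3) k)) :
          Set (MvPolynomial (Fin 3) k))).radical) ∧
    ∀ (ι : Type w) [Finite ι] (a b : ι → Fin 3 → k), (∀ i, b i ≠ 0) →
      (Pairwise fun i j => lineIdeal (a i) (b i) ⊔ lineIdeal (a j) (b j) = ⊤) →
      ∀ F G : MvPolynomial (Fin 3) k, F ∈ (⨅ i, lineIdeal (a i) (b i)) →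
      G ∈ (⨅ i, lineIdeal (a i) (b i)) →
      TwoEq ((Ideal.span {F, G} : Ideal (MvPolynomial (Fin 3) k)).colon
        ((⨅ i, lineIdeal (a i) (b i) : Ideal (MvPolynomial (Fin 3) k)) :
          Set (MvPolynomial (Fin 3) k))).radical := by
  constructor
  · intro ι _ E _ φ hφ hci hd F G hF hG
    exact twoEq_residual_family E φ hφ hci hd hF hG
  · intro ι _ a b hb hd F G hF hG
    exact twoEq_residual_family (fun _ : ι => Polynomial k)
      (fun i => (lphi (a i) (b i)).toRingHom) (fun i => by
        obtain ⟨j, hj⟩ := Function.ne_iff.1 (hb i)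
        exact lphi_surjective hj) (fun i => line_ci (a i) (b i) (hb i)) hd
      (fun i => (Submodule.mem_iInf _).1 hF i) (fun i => (Submodule.mem_iInf _).1 hG i)

end Pool.Agent.Results.MP_204867_ag.LinkedToLines
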