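import Pool.Agent.H24.LG.Main

/-!
# Local-to-global for set-theoretic complete intersection curves in affine three-space
-/

set_option autoImplicit false

namespace Pool.Agent.Results.MP_204867_ag.LocalToGlobal

open MvPolynomial STCI STCI.LG

universe u

/-- If every irreducible component of a closed subset of affine three-space over a field is, near each of its closed points, the set of
common zeros of two polynomials (which may vary with the point) one of which is not in the second symbolic power of the component (a
surface which is regular at the generic point of the component), then the closed subset is the zero set of two polynomials. -/
theorem result (k : Type u) [Field k] (I : Ideal (MvPolynomial (Fin 3) k))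
    (h : ∀ P ∈ I.minimalPrimes, ∀ m : Ideal (MvPolynomial (Fin 3) k), m.IsMaximal → P ≤ m →
      ∃ a b : MvPolynomial (Fin 3) k, CutNear P m a b ∧ GenSmooth P a) :
    TwoEq I.radical := by
  refine UN.twoEq_radical k I fun P hP => ?_
  have hPp := hP.1.1
  exact twoEq_prime k P (h P hP)

end Pool.Agent.Results.MP_204867_ag.LocalToGlobal
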