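import Pool.Agent.H24.M5.FinalB

/-!
# Curves in affine three-space with small singularities
-/

set_option autoImplicit false

namespace Pool.Agent.Results.MP_204867_ag.SmallSingularities

open MvPolynomial STCI STCI.LG STCI.M5

universe u

/-- A curve in affine three-space over a field (a closed subset whose irreducible components are neither points nor everything) all of
whose irreducible components have small singularities (`MildSing`: for instance, all singular points of the components have multiplicity
at most five, over any field) is the zero set of two polynomials. -/
theorem result (k : Type u) [Field k] (I : Ideal (MvPolynomial (Fin 3) k))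
    (h : ∀ P ∈ I.minimalPrimes, ¬ P.IsMaximal ∧
      ∀ (m : Ideal (MvPolynomial (Fin 3) k)) [m.IsMaximal], P ≤ m →
        MildSing (P.map (algebraMap _ (Localization.AtPrime m)))) :
    TwoEq I.radical := by
  refine UN.twoEq_radical k I fun P hP => ?_
  have hPp := hP.1.1
  exact twoEq_small k P (h P hP).1 (h P hP).2

end Pool.Agent.Results.MP_204867_ag.SmallSingularities
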