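import Pool.Agent.H41.UN.Main

/-!
# Set-theoretic complete intersections in affine three-space are closed under unions
-/

set_option autoImplicit false

namespace Pool.Agent.Results.MP_204867_ag.UnionClosed

open MvPolynomial STCI

universe u

/-- If two closed subsets of affine three-space over a field are each the zero set of two polynomials, then so is their union;
in particular a closed subset is the zero set of two polynomials as soon as each of its irreducible components is. -/
theorem result (k : Type u) [Field k] :
    (∀ I J : Ideal (MvPolynomial (Fin 3) k), TwoEq I → TwoEq J → TwoEq (I ⊓ J)) ∧
    ∀ I : Ideal (MvPolynomial (Fin 3) k), (∀ P ∈ I.minimalPrimes, TwoEq P) → TwoEq I.radical :=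
  ⟨UN.twoEq_inf k, UN.twoEq_radical k⟩

end Pool.Agent.Results.MP_204867_ag.UnionClosed
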